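import Pool.Agent.H56.ER2.Targets
import Pool.Agent.H48.ER.Lib

/-! Row IA1. -/

set_option autoImplicit false

open Pool.Agent.H48.ER Pool.Agent.H52.ER2 Pool.Agent.H66.ER2 Pool.Agent.H56.ER2

namespace Pool.Agent.H68.ER2

variable {V : Type} {G : SimpleGraph V}

theorem pf_ip {n : ℕ} {g : ℕ → V} (h : PF G n g) {i j : ℕ} (hij : i ≤ j) (hj : j ≤ n) :
    IP G (j - i) (g i) (g j) (seg g i j) := by
  refine ⟨fun k => g (i + k), by simp, ?_, ?_, ?_, ?_⟩
  · show g (i + (j - i)) = g j
    congr 1; omega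
  · intro a b ha hb e
    have := h.inj _ _ (by omega) (by omega) e
    omega
  · intro a b ha hb
    show G.Adj (g (i + a)) (g (i + b)) ↔ _
    rw [h.adj _ _ (by omega) (by omega)]
    omega
  · ext v; constructor
    · rintro ⟨k, h1, h2, rfl⟩
      exact ⟨k - i, by omega, by show g (i + (k - i)) = g k; congr 1; omega⟩
    · rintro ⟨k, h1, rfl⟩
      exact ⟨i + k, by omega, by omega, rfl⟩

theorem mem_sg {g : ℕ → V} {i j k : ℕ} (h1 : i ≤ k) (h2 : k ≤ j) : g k ∈ seg g i j :=
  ⟨k, h1, h2, rfl⟩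

theorem ia1_fin (hPPR : T_PPR) (hCNI : T_CNI) (hCNU : T_CNU) {v : V} {n : ℕ} {z : ℕ → V}
    {p q : ℕ} {y x : ℕ → V} {i j k : ℕ} (hS : Stg G v n z) (hF : Fab G v n z)
    (hA : As1 G v n z p q y x i j k)
    (hl : ∀ u ∈ seg y 1 i ∪ seg x 1 j, (G.Adj v u ↔ u = y 1) ∧ (G.Adj (z 1) u ↔ u = x 1))
    {m : ℕ} {t : V} {Q : Set V} (hQ : IP G m (x 1) t Q) (hQH : Q ⊆ seg y 1 i ∪ seg x 1 j)
    (hy1 : y 1 ∉ Q) (h1 : ∀ w ∈ Q, G.Adj (y 1) w ↔ w = t) (h0 : y 0 ∉ Q)
    (h0' : ∀ w ∈ Q, ¬ G.Adj (y 0) w) : G.Adj (y p) (y 1) := by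
  by_contra hcon
  have hn : 4 ≤ n := hF.four
  have hi1 := hA.i1
  have hip := hA.ip
  have hp2 := hA.p2
  have hW : ∀ e, 1 ≤ e → e < n → z e ∈ Wz n z := fun e h h' => ⟨e, h, h', rfl⟩
  have hz1Q : z 1 ∉ Q := by
    intro h
    rcases hQH h with ⟨e, he, he', e1⟩ | ⟨e, he, he', e1⟩
    · exact hA.zy e (by omega) e1
    · have := hA.kq
      have := hA.jk
      exact hA.zx e (by omega) e1
  have hR := hQ.cons hz1Q fun w hw => (hl w (hQH hw)).2
  have hvy1 : G.Adj v (y 1) := ((hl (y 1) (Or.inl (mem_sg le_rfl hi1))).1).2 rfl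
  have hvQ : ∀ w ∈ Q, w ≠ v ∧ ¬ G.Adj v w := by
    intro w hw
    constructor
    · rintro rfl
      rcases hQH hw with ⟨e, he, he', e1⟩ | ⟨e, he, he', e1⟩
      · exact hA.vy e (by omega) e1
      · have := hA.kq
        have := hA.jk
        exact hA.vx e (by omega) e1
    · intro e
      exact hy1 (((hl w (hQH hw)).1.1 e) ▸ hw)
  have hz1 := hF.vw (z 1) (hW 1 le_rfl (by omega))
  have hy1z : ∀ w ∈ Wz n z, ¬ G.Adj (y 1) w := hA.ty 1 le_rfl (by omega) hvy1
  have hyz : ∀ (u : V), G.Adj v u → ∀ w ∈ Wz n z, u ≠ w := by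
    rintro u hu w hw rfl
    exact (hF.vw u hw).2 hu
  have hD1 : Cn G (seg z 2 (n - 1)) :=
    hCNI V G _ _ _ _ (pf_ip hS.so.pf (i := 2) (j := n - 1) (by omega) (by omega))
  have hsubW : ∀ w ∈ seg z 2 (n - 1), w ∈ Wz n z := by
    rintro w ⟨e, he, he', rfl⟩
    exact hW e (by omega) (by omega)
  have hD : Cn G ({y p} ∪ seg z 2 (n - 1)) := by
    refine hCNU V G _ _ (hCNI V G _ _ _ _ (IP.zero (y p))) hD1
      ⟨y p, rfl, z (n - 1), mem_sg (by omega) le_rfl, Or.inr hA.b.2.1⟩
  have key := hPPR V G v (y 0) (y 1) (z 1) t (m + 1) (insert (z 1) Q)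
    ({y p} ∪ seg z 2 (n - 1)) hS.cls.noh hR (by omega) ?_ ?_ ?_ ?_ ?_ ?_ hA.ay.1 hvy1 ?_ hD ?_ ?_
    ?_ ?_ ⟨y p, Or.inl rfl, hA.b.1⟩ ?_
  · obtain ⟨a, b, N, P, hP, ha, _⟩ := key
    exact (hS.nco a b N P hP 0).1 ha.symm
  · rintro (e | e)
    · exact hyz _ hA.ay.1 _ (hW 1 le_rfl (by omega)) e
    · exact h0 e
  · rintro (e | e)
    · exact hyz _ hvy1 _ (hW 1 le_rfl (by omega)) e
    · exact hy1 e
  · rw [hA.py.adj 0 1 (by omega) (by omega)]
    omega
  · rintro w (rfl | hw)
    · exact ⟨fun _ => rfl, fun _ => hA.ay.2.1⟩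
    · constructor
      · intro e
        exact absurd e (h0' w hw)
      · rintro rfl
        exact absurd hw hz1Q
  · rintro w (rfl | hw)
    · constructor
      · intro e
        exact absurd e (hy1z _ (hW 1 le_rfl (by omega)))
      · intro e
        exact absurd (e ▸ hQ.right_mem) hz1Q
    · exact h1 w hw
  · rintro (e | e)
    · exact hz1.1 e.symm
    · exact (hvQ v e).1 rfl
  · rintro w (rfl | hw)
    · exact hz1.2
    · exact (hvQ w hw).2
  · rintro (e | e)
    · exact hA.vy p le_rfl (Set.mem_singleton_iff.1 e).symm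
    · exact (hF.vw _ (hsubW _ e)).1 rfl
  · rintro (e | e)
    · have := hA.py.inj 0 p (by omega) le_rfl (Set.mem_singleton_iff.1 e)
      omega
    · exact hyz _ hA.ay.1 _ (hsubW _ e) rfl
  · rintro (e | e)
    · have := hA.py.inj 1 p (by omega) le_rfl (Set.mem_singleton_iff.1 e)
      omega
    · exact hyz _ hvy1 _ (hsubW _ e) rfl
  · rintro w (hw | hw)
    · rw [Set.mem_singleton_iff.1 hw]
      refine ⟨?_, hcon⟩
      rw [hA.py.adj p 0 le_rfl (by omega)]
      omega
    · refine ⟨?_, fun e => hy1z _ (hsubW _ hw) e.symm⟩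
      obtain ⟨e, he, he', rfl⟩ := hw
      exact fun h => hA.ay.2.2 e (by omega) (by omega) h.symm
  · refine ⟨z 2, Or.inr (mem_sg le_rfl (by omega)), Or.inr ⟨z 1, Or.inl rfl, ?_⟩⟩
    rw [hS.so.pf.adj 2 1 (by omega) (by omega)]
    omega

theorem pf_IA1 (hPPR : T_PPR) (hCNI : T_CNI) (hCNU : T_CNU) : T_IA1 := by
  intro V G v n z p q y x i j k hS hF hA hl
  have hi1 := hA.i1
  have hip := hA.ip
  have hj1 := hA.j1
  have hjk := hA.jk
  have hkq := hA.kq
  have key : G.Adj (y p) (y 1) := by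
    rcases Nat.lt_or_ge i 2 with hi | hi
    · have hi : i = 1 := by omega
      subst hi
      refine ia1_fin hPPR hCNI hCNU hS hF hA hl (pf_ip hA.px hj1 (by omega)) Set.subset_union_right
        ?_ ?_ ?_ ?_
      · rintro ⟨e, he, he', e1⟩
        exact hA.dis 1 le_rfl e (by omega) e1.symm
      · rintro w ⟨e, he, he', rfl⟩
        constructor
        · intro h
          rcases Nat.lt_or_ge e j with hej | hej
          · exact absurd h (hA.lo e hej)
          · rw [le_antisymm he' hej]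
        · intro h
          rw [h]
          exact hA.cj
      · rintro ⟨e, he, he', e1⟩
        exact (hA.ny e (by omega)).1 e1
      · rintro w ⟨e, he, he', rfl⟩ h
        have := (hA.ny e (by omega)).2.1 h
        omega
    · have hd : Disjoint (seg x 1 j) (seg y 2 i) := by
        rw [Set.disjoint_left]
        rintro w ⟨e, he, he', rfl⟩ ⟨l, hl, hl', e1⟩
        exact hA.dis l hl' e (by omega) e1
      have hxe : XE G (seg x 1 j) (seg y 2 i) (x j) (y i) := by
        rintro _ ⟨e, he, he', rfl⟩ _ ⟨l, hl, hl', rfl⟩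
        constructor
        · intro h
          rcases Nat.lt_or_ge l i with hli | hli
          · exact absurd h.symm (hA.pre l (by omega) hli e (by omega))
          · have : l = i := le_antisymm hl' hli
            subst this
            rcases Nat.lt_or_ge e j with hej | hej
            · exact absurd h.symm (hA.lo e hej)
            · exact ⟨by rw [le_antisymm he' hej], rfl⟩
        · rintro ⟨e1, e2⟩
          rw [e1, e2]
          exact hA.cj.symm
      have hQ := (pf_ip hA.px hj1 (by omega)).append (pf_ip hA.py hi (by omega)).rev hd hxe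
      refine ia1_fin hPPR hCNI hCNU hS hF hA hl hQ ?_ ?_ ?_ ?_ ?_
      · rintro w (hw | ⟨l, hl, hl', rfl⟩)
        · exact Or.inr hw
        · exact Or.inl (mem_sg (by omega) hl')
      · rintro (⟨e, he, he', e1⟩ | ⟨l, hl, hl', e1⟩)
        · exact hA.dis 1 (by omega) e (by omega) e1.symm
        · have := hA.py.inj l 1 (by omega) (by omega) e1
          omega
      · rintro w (⟨e, he, he', rfl⟩ | ⟨l, hl, hl', rfl⟩)
        · constructor
          · intro h
            exact absurd h (hA.pre 1 le_rfl (by omega) e (by omega))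
          · intro h
            exact absurd h.symm (hA.dis 2 (by omega) e (by omega))
        · rw [hA.py.adj 1 l (by omega) (by omega)]
          constructor
          · intro h
            have : l = 2 := by omega
            rw [this]
          · intro h
            have := hA.py.inj l 2 (by omega) (by omega) h
            omega
      · rintro (⟨e, he, he', e1⟩ | ⟨l, hl, hl', e1⟩)
        · exact (hA.ny e (by omega)).1 e1
        · have := hA.py.inj l 0 (by omega) (by omega) e1
          omega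
      · rintro w (⟨e, he, he', rfl⟩ | ⟨l, hl, hl', rfl⟩) h
        · have := (hA.ny e (by omega)).2.1 h
          omega
        · rw [hA.py.adj 0 l (by omega) (by omega)] at h
          omega
  rw [hA.py.adj p 1 le_rfl (by omega)] at key
  have := hA.p2
  omega

end Pool.Agent.H68.ER2
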