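import Pool.Agent.H56.ER2.Targets
import Pool.Agent.H48.ER.Lib

/-! Row RH2. -/

set_option autoImplicit false

open Pool.Agent.H48.ER Pool.Agent.H52.ER2 Pool.Agent.H66.ER2 Pool.Agent.H56.ER2

namespace Pool.Agent.H68.ER2

variable {V : Type} {G : SimpleGraph V}

/-- `h 0, .., h N` is a hole -/
structure Hl (G : SimpleGraph V) (N : ℕ) (h : ℕ → V) : Prop where
  inj : ∀ i j, i ≤ N → j ≤ N → h i = h j → i = j
  adj : ∀ i j, i ≤ N → j ≤ N →
    (G.Adj (h i) (h j) ↔ i + 1 = j ∨ j + 1 = i ∨ (i = 0 ∧ j = N) ∨ (i = N ∧ j = 0))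

theorem Hl.ip {N : ℕ} {h : ℕ → V} (H : Hl G N h) {i j : ℕ} (hij : i ≤ j) (hj : j ≤ N)
    (hne : ¬ (i = 0 ∧ j = N)) : IP G (j - i) (h i) (h j) (seg h i j) := by
  refine ⟨fun k => h (i + k), by simp, ?_, ?_, ?_, ?_⟩
  · show h (i + (j - i)) = h j
    congr 1; omega
  · intro a b ha hb e
    have := H.inj _ _ (by omega) (by omega) e
    omega
  · intro a b ha hb
    show G.Adj (h (i + a)) (h (i + b)) ↔ _
    rw [H.adj _ _ (by omega) (by omega)]
    omega
  · ext v; constructor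
    · rintro ⟨k, h1, h2, rfl⟩
      exact ⟨k - i, by omega, by show h (i + (k - i)) = h k; congr 1; omega⟩
    · rintro ⟨k, h1, rfl⟩
      exact ⟨i + k, by omega, by omega, rfl⟩

/-- the hole consisting of the edge `c c'` and of the path -/
theorem exists_hl {c c' s t : V} {r : ℕ} {R : Set V} (hR : IP G r s t R)
    (hc : c ∉ R) (hc' : c' ∉ R) (hcc : G.Adj c c') (h1 : ∀ u ∈ R, G.Adj c u ↔ u = s)
    (h2 : ∀ u ∈ R, G.Adj c' u ↔ u = t) : ∃ h : ℕ → V, Hl G (r + 2) h ∧ h 0 = c ∧
      h (r + 2) = c' ∧ h 1 = s ∧ h (r + 1) = t ∧ ∀ u, u ∈ R ↔ ∃ i, 1 ≤ i ∧ i ≤ r + 1 ∧ h i = u := by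
  obtain ⟨g, g0, gn, gi, ga, hRe⟩ := hR
  have hgR : ∀ i, i ≤ r → g i ∈ R := fun i hi => by rw [hRe]; exact ⟨i, hi, rfl⟩
  let h : ℕ → V := fun i => if i = 0 then c else if i = r + 2 then c' else g (i - 1)
  have e0 : h 0 = c := by simp [h]
  have eN : h (r + 2) = c' := by simp [h]
  have eg : ∀ i, 1 ≤ i → i ≤ r + 1 → h i = g (i - 1) := by
    intro i hi hi'
    have q1 : i ≠ 0 := by omega
    have q2 : i ≠ r + 2 := by omega
    simp [h, q1, q2]
  have cs : ∀ i, i ≤ r + 2 → i = 0 ∨ i = r + 2 ∨ (1 ≤ i ∧ i ≤ r + 1) := by intro i hi; omega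
  have hcg : ∀ i, i ≤ r → (G.Adj c (g i) ↔ i = 0) := by
    intro i hi
    rw [h1 _ (hgR i hi)]
    constructor
    · intro e
      exact gi _ _ hi (Nat.zero_le _) (e.trans g0.symm)
    · rintro rfl
      exact g0
  have hcg' : ∀ i, i ≤ r → (G.Adj c' (g i) ↔ i = r) := by
    intro i hi
    rw [h2 _ (hgR i hi)]
    constructor
    · intro e
      exact gi _ _ hi le_rfl (e.trans gn.symm)
    · rintro rfl
      exact gn
  have nc : ∀ i, i ≤ r → g i ≠ c := fun i hi e => hc (e ▸ hgR i hi)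
  have nc' : ∀ i, i ≤ r → g i ≠ c' := fun i hi e => hc' (e ▸ hgR i hi)
  refine ⟨h, ⟨?_, ?_⟩, e0, eN, ?_, ?_, ?_⟩
  · intro i j hi hj e
    rcases cs i hi with rfl | rfl | ⟨q1, q2⟩ <;> rcases cs j hj with rfl | rfl | ⟨p1, p2⟩
    · rfl
    · rw [e0, eN] at e
      exact absurd e hcc.ne
    · rw [e0, eg j p1 p2] at e
      exact absurd e.symm (nc _ (by omega))
    · rw [e0, eN] at e
      exact absurd e.symm hcc.ne
    · rfl
    · rw [eN, eg j p1 p2] at e
      exact absurd e.symm (nc' _ (by omega))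
    · rw [e0, eg i q1 q2] at e
      exact absurd e (nc _ (by omega))
    · rw [eN, eg i q1 q2] at e
      exact absurd e (nc' _ (by omega))
    · rw [eg i q1 q2, eg j p1 p2] at e
      have := gi _ _ (by omega) (by omega) e
      omega
  · intro i j hi hj
    rcases cs i hi with rfl | rfl | ⟨q1, q2⟩ <;> rcases cs j hj with rfl | rfl | ⟨p1, p2⟩
    · constructor
      · intro e
        exact absurd e (G.loopless.irrefl _)
      · intro e
        omega
    · rw [e0, eN]
      exact ⟨fun _ => by omega, fun _ => hcc⟩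
    · rw [e0, eg j p1 p2, hcg _ (by omega)]
      omega
    · rw [e0, eN]
      exact ⟨fun _ => by omega, fun _ => hcc.symm⟩
    · constructor
      · intro e
        exact absurd e (G.loopless.irrefl _)
      · intro e
        omega
    · rw [eN, eg j p1 p2, hcg' _ (by omega)]
      omega
    · rw [e0, eg i q1 q2, SimpleGraph.adj_comm, hcg _ (by omega)]
      omega
    · rw [eN, eg i q1 q2, SimpleGraph.adj_comm, hcg' _ (by omega)]
      omega
    · rw [eg i q1 q2, eg j p1 p2, ga _ _ (by omega) (by omega)]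
      omega
  · rw [eg 1 le_rfl (by omega)]
    exact g0
  · rw [eg (r + 1) (by omega) le_rfl]
    exact gn
  · intro u
    rw [hRe]
    constructor
    · rintro ⟨i, hi, rfl⟩
      refine ⟨i + 1, by omega, by omega, ?_⟩
      rw [eg (i + 1) (by omega) (by omega)]
      simp
    · rintro ⟨i, hi, hi', rfl⟩
      exact ⟨i - 1, by omega, (eg i hi hi').symm⟩

/-- gaps of one vertex -/
theorem gap_even {N : ℕ} {h : ℕ → V} (H : Hl G N h) (hG : NOH G) {v : V}
    (hv : ∀ i, i ≤ N → h i ≠ v) {i j : ℕ} (hij : i + 2 ≤ j) (hj : j ≤ N)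
    (hne : ¬ (i = 0 ∧ j = N)) (h1 : G.Adj v (h i)) (h2 : G.Adj v (h j))
    (h3 : ∀ k, i < k → k < j → ¬ G.Adj v (h k)) : Even (j - i) := by
  refine hG (j - i) (h i) (h j) v (seg h i j) (H.ip (by omega) hj hne) (by omega) ?_ h1 h2 ?_
  · rintro ⟨k, _, hk, e⟩
    exact hv k (by omega) e
  · rintro w ⟨k, hk, hk', rfl⟩ hw
    by_contra hc
    rw [not_or] at hc
    have q1 : k ≠ i := by
      rintro rfl
      exact hc.1 rfl
    have q2 : k ≠ j := by
      rintro rfl
      exact hc.2 rfl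
    exact h3 k (by omega) (by omega) hw

/-- mixed gaps, closed by the first vertex of the hole -/
theorem mix_even {N : ℕ} {h : ℕ → V} (H : Hl G N h) (hG : NOH G) {v w x : V}
    (hv : ∀ i, i ≤ N → h i ≠ v) (hw : ∀ i, i ≤ N → h i ≠ w) (hvw : v ≠ w) (hnvw : ¬ G.Adj v w)
    (hvx : G.Adj v x) (hwx : G.Adj w x)
    {i j : ℕ} (hij : i < j) (hj : j ≤ N) (hne : ¬ (i = 0 ∧ j = N))
    (hx : ∀ k, i ≤ k → k ≤ j → h k ≠ x ∧ ¬ G.Adj x (h k))
    (h1 : G.Adj v (h i)) (h2 : G.Adj w (h j))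
    (h3 : ∀ k, i < k → k ≤ j → ¬ G.Adj v (h k))
    (h4 : ∀ k, i ≤ k → k < j → ¬ G.Adj w (h k)) : Even (j - i) := by
  have p1 := (H.ip hij.le hj hne).rev
  have p2 : IP G (j - i + 1) w (h i) (insert w (seg h i j)) := by
    refine p1.cons ?_ ?_
    · rintro ⟨k, _, hk, e⟩
      exact hw k (by omega) e
    · rintro u ⟨k, hk, hk', rfl⟩
      constructor
      · intro e
        rcases Nat.lt_or_ge k j with hkj | hkj
        · exact absurd e (h4 k hk hkj)
        · rw [le_antisymm hk' hkj]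
      · intro e
        rw [e]
        exact h2
  have p3 : IP G (j - i + 1 + 1) x (h i) (insert x (insert w (seg h i j))) := by
    refine p2.cons ?_ ?_
    · rintro (e | ⟨k, hk, hk', e⟩)
      · exact hwx.ne e.symm
      · exact (hx k hk hk').1 e
    · rintro u (rfl | ⟨k, hk, hk', rfl⟩)
      · exact ⟨fun _ => rfl, fun _ => hwx.symm⟩
      · constructor
        · intro e
          exact absurd e (hx k hk hk').2
        · intro e
          exact absurd e (hw k (by omega))
  have := hG _ x (h i) v _ p3 (by omega) ?_ hvx h1 ?_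
  · have e : j - i + 1 + 1 = (j - i) + 2 := by omega
    rw [e, Nat.even_add] at this
    exact this.2 (by decide)
  · rintro (e | e | ⟨k, _, hk, e⟩)
    · exact hvx.ne e
    · exact hvw e
    · exact hv k (by omega) e
  · rintro u (rfl | rfl | ⟨k, hk, hk', rfl⟩) hu
    · exact Or.inl rfl
    · exact absurd hu hnvw
    · rcases Nat.lt_or_ge i k with hik | hik
      · exact absurd hu (h3 k hik hk')
      · rw [le_antisymm hik hk]
        exact Or.inr rfl

/-- mixed gaps -/
theorem mix_all {N : ℕ} {h : ℕ → V} (H : Hl G N h) (hG : NOH G) {v w : V}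
    (hv : ∀ i, i ≤ N → h i ≠ v) (hw : ∀ i, i ≤ N → h i ≠ w) (hvw : v ≠ w) (hnvw : ¬ G.Adj v w)
    (hv0 : G.Adj v (h 0)) (hvN : G.Adj v (h N)) (hw0 : G.Adj w (h 0)) (hwN : G.Adj w (h N))
    (hcom : ∀ i, 0 < i → i < N → ¬ (G.Adj v (h i) ∧ G.Adj w (h i)))
    {i j : ℕ} (hi : 0 < i) (hij : i < j) (hj : j < N)
    (hb : ∀ k, i < k → k < j → ¬ G.Adj v (h k) ∧ ¬ G.Adj w (h k))
    (h1 : G.Adj v (h i)) (h2 : G.Adj w (h j)) : Even (j - i) ∨ (i = 1 ∧ j + 1 = N) := by
  have h3 : ∀ k, i < k → k ≤ j → ¬ G.Adj v (h k) := by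
    intro k hk hk'
    rcases Nat.lt_or_ge k j with hkj | hkj
    · exact (hb k hk hkj).1
    · rw [le_antisymm hk' hkj]
      exact fun e => hcom j (by omega) hj ⟨e, h2⟩
  have h4 : ∀ k, i ≤ k → k < j → ¬ G.Adj w (h k) := by
    intro k hk hk'
    rcases Nat.lt_or_ge i k with hik | hik
    · exact (hb k hik hk').2
    · rw [← le_antisymm hk hik]
      exact fun e => hcom i hi (by omega) ⟨h1, e⟩
  by_cases c1 : 2 ≤ i
  · left
    refine mix_even H hG hv hw hvw hnvw hv0 hw0 hij (by omega) (by omega) ?_ h1 h2 h3 h4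
    intro k hk hk'
    constructor
    · intro e
      have := H.inj _ _ (by omega) (by omega) e
      omega
    · intro e
      rw [H.adj _ _ (by omega) (by omega)] at e
      omega
  by_cases c2 : j + 1 < N
  · left
    refine mix_even H hG hv hw hvw hnvw hvN hwN hij (by omega) (by omega) ?_ h1 h2 h3 h4
    intro k hk hk'
    constructor
    · intro e
      have := H.inj _ _ (by omega) (by omega) e
      omega
    · intro e
      rw [H.adj _ _ (by omega) (by omega)] at e
      omega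
  · right
    omega

theorem pf_RH2 (hPAR : T_PAR) : T_RH2 := by
  intro V G v w c c' s t r R hG hR hr hc hc' hcc hcR hcR' hvR hwR hvw hnvw hvc hvc' hwc hwc' hcom
    hvs hws
  obtain ⟨h, H, e0, eN, e1, et, hRm⟩ := exists_hl hR hc hc' hcc hcR hcR'
  have hv : ∀ i, i ≤ r + 2 → h i ≠ v := by
    intro i hi e
    rcases Nat.eq_zero_or_pos i with rfl | hi0
    · rw [e0] at e
      exact hvc.ne e.symm
    rcases Nat.lt_or_ge i (r + 2) with hi2 | hi2
    · exact hvR ((hRm v).2 ⟨i, hi0, by omega, e⟩)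
    · rw [le_antisymm hi hi2, eN] at e
      exact hvc'.ne e.symm
  have hw : ∀ i, i ≤ r + 2 → h i ≠ w := by
    intro i hi e
    rcases Nat.eq_zero_or_pos i with rfl | hi0
    · rw [e0] at e
      exact hwc.ne e.symm
    rcases Nat.lt_or_ge i (r + 2) with hi2 | hi2
    · exact hwR ((hRm w).2 ⟨i, hi0, by omega, e⟩)
    · rw [le_antisymm hi hi2, eN] at e
      exact hwc'.ne e.symm
  have hcom' : ∀ i, 0 < i → i < r + 2 → ¬ (G.Adj v (h i) ∧ G.Adj w (h i)) := fun i hi hi' =>
    hcom (h i) ((hRm _).2 ⟨i, hi, by omega, rfl⟩)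
  have hv0 : G.Adj v (h 0) := by rw [e0]; exact hvc
  have hvN : G.Adj v (h (r + 2)) := by rw [eN]; exact hvc'
  have hw0 : G.Adj w (h 0) := by rw [e0]; exact hwc
  have hwN : G.Adj w (h (r + 2)) := by rw [eN]; exact hwc'
  have hodd : ¬ Even (r + 2) := by
    have hip : IP G (r + 1) (h 0) (h (r + 1)) (seg h 0 (r + 1)) := by
      have := H.ip (i := 0) (j := r + 1) (Nat.zero_le _) (by omega) (by omega)
      rwa [Nat.sub_zero] at this
    have := hG (r + 1) (h 0) (h (r + 1)) (h (r + 2)) (seg h 0 (r + 1)) hip (by omega) ?_ ?_ ?_ ?_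
    · rintro ⟨p, hp⟩
      obtain ⟨q, hq⟩ := this
      omega
    · rintro ⟨k, _, hk, e⟩
      have := H.inj _ _ (by omega) (by omega) e
      omega
    · rw [H.adj _ _ (by omega) (by omega)]
      omega
    · rw [H.adj _ _ (by omega) (by omega)]
      omega
    · rintro u ⟨k, hk, hk', rfl⟩ hu
      rw [H.adj _ _ (by omega) (by omega)] at hu
      have : k = 0 ∨ k = r + 1 := by omega
      rcases this with rfl | rfl
      · exact Or.inl rfl
      · exact Or.inr rfl
  by_contra hcon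
  rw [not_or] at hcon
  -- the exceptional mixed gap
  have fin : ∀ x y : V, (∀ u ∈ R, ¬ (G.Adj x u ∧ G.Adj y u)) → G.Adj x (h 1) →
      G.Adj y (h (r + 1)) → (∀ k, 1 < k → k < r + 1 → ¬ G.Adj x (h k) ∧ ¬ G.Adj y (h k)) →
      ∀ u ∈ R, (G.Adj x u ↔ u = s) ∧ (G.Adj y u ↔ u = t) := by
    intro x y hc h1 h2 hb u hu
    obtain ⟨k, hk, hk', rfl⟩ := (hRm u).1 hu
    rw [← e1, ← et]
    constructor
    · constructor
      · intro e
        by_contra hne
        have q1 : k ≠ 1 := by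
          rintro rfl
          exact hne rfl
        rcases Nat.lt_or_ge k (r + 1) with hh | hh
        · exact (hb k (by omega) hh).1 e
        · rw [le_antisymm hk' hh] at e
          exact hc (h (r + 1)) ((hRm _).2 ⟨r + 1, by omega, le_rfl, rfl⟩) ⟨e, h2⟩
      · intro e
        rw [e]
        exact h1
    · constructor
      · intro e
        by_contra hne
        have q1 : k ≠ r + 1 := by
          rintro rfl
          exact hne rfl
        rcases Nat.lt_or_ge 1 k with hh | hh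
        · exact (hb k hh (by omega)).2 e
        · rw [← le_antisymm hk hh] at e
          exact hc (h 1) ((hRm _).2 ⟨1, le_rfl, by omega, rfl⟩) ⟨h1, e⟩
      · intro e
        rw [e]
        exact h2
  refine hodd (hPAR (r + 2) (fun i => G.Adj v (h i)) (fun i => G.Adj w (h i)) (by omega) hv0 hvN
    hw0 hwN hcom' ?_ ?_ ?_)
  · intro i j hij hj h1 h2 h3
    refine gap_even H hG hv hij hj ?_ h1 h2 h3
    rintro ⟨rfl, rfl⟩
    obtain ⟨u, hu, hvu⟩ := hvs
    obtain ⟨k, hk, hk', rfl⟩ := (hRm u).1 hu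
    exact h3 k (by omega) (by omega) hvu
  · intro i j hij hj h1 h2 h3
    refine gap_even H hG hw hij hj ?_ h1 h2 h3
    rintro ⟨rfl, rfl⟩
    obtain ⟨u, hu, hvu⟩ := hws
    obtain ⟨k, hk, hk', rfl⟩ := (hRm u).1 hu
    exact h3 k (by omega) (by omega) hvu
  · intro i j hi hij hj hb hor
    rcases hor with ⟨h1, h2⟩ | ⟨h1, h2⟩
    · rcases mix_all H hG hv hw hvw hnvw hv0 hvN hw0 hwN hcom' hi hij hj hb h1 h2 with
        e | ⟨rfl, e⟩
      · exact e
      · have : j = r + 1 := by omega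
        subst this
        exact absurd (fin v w hcom h1 h2 hb) hcon.1
    · rcases mix_all H hG hw hv hvw.symm (fun e => hnvw e.symm) hw0 hwN hv0 hvN
        (fun i hi hi' e => hcom' i hi hi' e.symm) hi hij hj (fun k hk hk' => (hb k hk hk').symm)
        h1 h2 with e | ⟨rfl, e⟩
      · exact e
      · have : j = r + 1 := by omega
        subst this
        have := fin w v (fun u hu e => hcom u hu e.symm) h1 h2 fun k hk hk' => (hb k hk hk').symm
        exact absurd (fun u hu => (this u hu).symm) hcon.2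

end Pool.Agent.H68.ER2
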